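import Pool.Agent.L7h47.DF.Stm

set_option autoImplicit false

open Finset Pool.Agent.L7h47.DF

namespace Pool.Agent.L7h55.DF

theorem s_ITR : S_ITR := by
  intro G _ _ _ D p g0 h j
  induction j with
  | zero => exact ⟨0, by simp⟩
  | succ j ih =>
    obtain ⟨g1, h1⟩ := ih
    refine ⟨g0 + p • g1, ?_⟩
    have e1 : D.image (fun d => p ^ (j + 1) • d) =
        (D.image (fun d => p ^ j • d)).image (fun d => p • d) := by
      rw [Finset.image_image]
      apply Finset.image_congr
      intro d _
      simp only [Function.comp]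
      rw [← mul_smul, pow_succ, mul_comm]
    have e2 : (D.image (fun d => d + g1)).image (fun d => p • d) =
        (D.image (fun d => p • d)).image (fun d => d + p • g1) := by
      rw [Finset.image_image, Finset.image_image]
      apply Finset.image_congr
      intro d _
      simp only [Function.comp, smul_add]
    rw [e1, h1, e2, h, Finset.image_image]
    apply Finset.image_congr
    intro d _
    simp only [Function.comp]
    abel

section
variable {G : Type} [AddCommGroup G] [Fintype G] [DecidableEq G] (p : ℕ)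

/-- coefficient of a sum over pairs -/
theorem coeff_pairs (D : Finset G) (a : G → G → G) (g : G) :
    (∑ e ∈ D ×ˢ D, (AddMonoidAlgebra.single (a e.1 e.2) (1 : ZMod p) :
      AddMonoidAlgebra (ZMod p) G)).coeff g =
    (((D ×ˢ D).filter fun e => a e.1 e.2 = g).card : ZMod p) := by
  rw [AddMonoidAlgebra.coeff_sum, Finsupp.finset_sum_apply, Finset.card_filter]
  push_cast
  apply Finset.sum_congr rfl
  intro e _
  rw [AddMonoidAlgebra.coeff_single_apply]

/-- the sum of all group elements -/
noncomputable def zz (G : Type) [AddCommGroup G] [Fintype G] (p : ℕ) :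
    AddMonoidAlgebra (ZMod p) G := ∑ g : G, AddMonoidAlgebra.single g 1

theorem coeff_zz (g : G) : (zz G p).coeff g = 1 := by
  unfold zz
  rw [AddMonoidAlgebra.coeff_sum, Finsupp.finset_sum_apply]
  simp [AddMonoidAlgebra.coeff_single_apply]

theorem single_zz (g : G) : AddMonoidAlgebra.single g (1 : ZMod p) * zz G p = zz G p := by
  unfold zz
  rw [Finset.mul_sum]
  simp only [AddMonoidAlgebra.single_mul_single, mul_one]
  exact Fintype.sum_equiv (Equiv.addLeft g) _ _ (fun x => rfl)

theorem s_FROB : S_FROB := by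
  intro G _ _ _ k lam D hD p hp hl hlp hlk hdvd g
  haveI := Fact.mk hp
  haveI : CharP (AddMonoidAlgebra (ZMod p) G) p := charP_of_injective_algebraMap
    (algebraMap (ZMod p) (AddMonoidAlgebra (ZMod p) G)).injective p
  obtain ⟨hc, hA⟩ := hD
  have hkl : (k : ZMod p) = (lam : ZMod p) := by
    have h1 : (((k - lam : ℕ)) : ZMod p) = 0 := (ZMod.natCast_eq_zero_iff _ _).2 hdvd
    rw [Nat.cast_sub hlk.le, sub_eq_zero] at h1
    exact h1
  have hl0 : (lam : ZMod p) ≠ 0 := by
    intro h
    rw [ZMod.natCast_eq_zero_iff] at h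
    have := Nat.le_of_dvd hl h
    omega
  set x : AddMonoidAlgebra (ZMod p) G := ∑ d ∈ D, AddMonoidAlgebra.single d 1 with hx
  set y : AddMonoidAlgebra (ZMod p) G := ∑ d ∈ D, AddMonoidAlgebra.single (-d) 1 with hy
  have hxp : x ^ p = ∑ d ∈ D, AddMonoidAlgebra.single (p • d) 1 := by
    rw [hx, sum_pow_char]
    apply Finset.sum_congr rfl
    intro d _
    rw [AddMonoidAlgebra.single_pow, one_pow]
  have hxy : x * y = (lam : ZMod p) • zz G p := by
    rw [hx, hy, Finset.sum_mul_sum, ← Finset.sum_product']
    simp only [AddMonoidAlgebra.single_mul_single, mul_one]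
    ext g
    rw [coeff_pairs p D (fun a b => a + -b) g, AddMonoidAlgebra.coeff_smul, Finsupp.smul_apply,
      coeff_zz, smul_eq_mul, mul_one]
    simp only [← sub_eq_add_neg]
    by_cases hg : g = 0
    · rw [← hkl, ← hc]
      congr 1
      rw [hg, ← Finset.card_image_of_injective D (f := fun d => (d, d))
        (fun a b h => (Prod.mk.inj h).1)]
      congr 1
      ext ⟨a, b⟩
      simp only [Finset.mem_filter, Finset.mem_product, Finset.mem_image, Prod.mk.injEq]
      constructor
      · rintro ⟨⟨ha, -⟩, h⟩
        exact ⟨a, ha, rfl, sub_eq_zero.mp h⟩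
      · rintro ⟨d, hd, rfl, rfl⟩
        exact ⟨⟨hd, hd⟩, sub_self _⟩
    · rw [hA g hg]
  have hxz : x * zz G p = (k : ZMod p) • zz G p := by
    rw [hx, Finset.sum_mul]
    simp only [single_zz]
    rw [Finset.sum_const, hc, Nat.cast_smul_eq_nsmul]
  have hpow : ∀ j : ℕ, x ^ j * zz G p = ((k : ZMod p) ^ j) • zz G p := by
    intro j
    induction j with
    | zero => simp
    | succ j ih => rw [pow_succ, mul_assoc, hxz, mul_smul_comm, ih, smul_smul, pow_succ, mul_comm]
  have hfin : x ^ p * y = (lam : ZMod p) • zz G p := by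
    have h1 : x ^ p = x ^ (p - 1) * x := by
      rw [← pow_succ, Nat.sub_add_cancel hp.one_le]
    rw [h1, mul_assoc, hxy, mul_smul_comm, hpow, smul_smul, hkl,
      ZMod.pow_card_sub_one_eq_one hl0, mul_one]
  have hcount : (x ^ p * y).coeff g =
      (((D ×ˢ D).filter fun e => p • e.1 - e.2 = g).card : ZMod p) := by
    rw [hxp, hy, Finset.sum_mul_sum, ← Finset.sum_product']
    simp only [AddMonoidAlgebra.single_mul_single, mul_one]
    rw [coeff_pairs p D (fun a b => p • a + -b) g]
    simp only [← sub_eq_add_neg]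
  rw [hfin, AddMonoidAlgebra.coeff_smul, Finsupp.smul_apply, coeff_zz, smul_eq_mul,
    mul_one] at hcount
  exact (ZMod.natCast_eq_natCast_iff _ _ _).1 hcount.symm

end

end Pool.Agent.L7h55.DF
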